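import Pool.Agent.Helper6.Pcf.LocC

/-!
The standing assumptions with two parameters: ideals closed under unions of fewer than `sg`
members on an index set of size at most `kappa`.
-/

universe u

open Cardinal Ordinal Set Pool.Agent.Helper6.Pcf

namespace Pool.Agent.PcfUnc

/-- at most `kappa` many regular cardinals above `2 ^ kappa`, ideals closed under unions of
fewer than `sg` members -/
structure CoreT {I : Type u} (sg kappa : Cardinal.{u}) (L : I → Cardinal.{u}) (B : Set (Set I))
    (lam : Cardinal.{u}) : Prop where
  sinf : ℵ₀ ≤ sg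
  kinf : ℵ₀ ≤ kappa
  card : #I ≤ kappa
  Lreg : ∀ x, (L x).IsRegular
  Lbig : ∀ x, (2 : Cardinal.{u}) ^ kappa < L x
  base : IsKI sg B
  lamP : InP sg L B lam

end Pool.Agent.PcfUnc
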