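import Pool.Agent.PcfUnc.TwoC
import Pool.Agent.Helper6.Pcf.Final

/-!
A set which is small for the largest member of the spectrum is covered by finitely many
generators of members of its spectrum.
-/

universe u

open Cardinal Ordinal Set Pool.Agent.Helper6.Pcf

namespace Pool.Agent.PcfUnc

theorem isKI_of_fin {I : Type u} {K : Set (Set I)} (h0 : (∅ : Set I) ∈ K)
    (hd : ∀ X Y : Set I, X ⊆ Y → Y ∈ K → X ∈ K)
    (hu : ∀ X Y : Set I, X ∈ K → Y ∈ K → X ∪ Y ∈ K) : IsKI (ℵ₀ : Cardinal.{u}) K := by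
  refine ⟨hd, fun S hS hc => ?_⟩
  have hfin : S.Finite := Cardinal.lt_aleph0_iff_set_finite.1 hc
  revert hS
  refine Set.Finite.induction_on (motive := fun S _ => S ⊆ K → ⋃₀ S ∈ K) S hfin ?_ ?_
  · intro _; rw [Set.sUnion_empty]; exact h0
  · intro a S _ _ ih hS
    rw [Set.sUnion_insert]
    exact hu _ _ (hS (Set.mem_insert _ _)) (ih (fun x hx => hS (Set.mem_insert_of_mem _ hx)))

section

variable {I : Type u} {kappa lam : Cardinal.{u}} {L : I → Cardinal.{u}} {B : Set (Set I)}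

theorem fin_cover (hC : CoreT ℵ₀ kappa L B lam)
    (hmax : ∀ K : Set (Set I), IsKIdeal ℵ₀ K → B ⊆ K → ¬ Dir L K (Order.succ lam))
    (bh : PT ℵ₀ L B lam → Set I) (hbc : ∀ s, (bh s)ᶜ ∈ Jst ℵ₀ L B s.1)
    (A : Set I) (hA : A ∈ Jst ℵ₀ L B lam) :
    ∃ u : Set (PT ℵ₀ L B lam), u.Finite ∧ (∀ s ∈ u, A ∉ Jst ℵ₀ L B s.1) ∧
      ∃ Y ∈ B, A ⊆ Y ∪ ⋃ s ∈ u, bh s := by
  classical
  have hinf : (ℵ₀ : Cardinal.{u}) ≤ ℵ₀ := le_rfl
  set K0 : Set (Set I) := {X | ∃ u : Set (PT ℵ₀ L B lam), u.Finite ∧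
    (∀ s ∈ u, A ∉ Jst ℵ₀ L B s.1) ∧ ∃ Y ∈ B, X ⊆ (Y ∪ Aᶜ) ∪ ⋃ s ∈ u, bh s} with hK0
  by_cases huniv : (Set.univ : Set I) ∈ K0
  · obtain ⟨u, h1, h2, Y, h3, h4⟩ := huniv
    refine ⟨u, h1, h2, Y, h3, fun x hx => ?_⟩
    rcases h4 (Set.mem_univ x) with (h5 | h5) | h5
    · exact Or.inl h5
    · exact absurd hx h5
    · exact Or.inr h5
  exfalso
  have hKI : IsKI ℵ₀ K0 := by
    refine isKI_of_fin ?_ ?_ ?_
    · exact ⟨∅, Set.finite_empty, fun s hs => absurd hs (Set.notMem_empty _), ∅,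
        hC.base.empty hinf, Set.empty_subset _⟩
    · rintro X Y hXY ⟨u, h1, h2, Z, h3, h4⟩
      exact ⟨u, h1, h2, Z, h3, hXY.trans h4⟩
    · rintro X X' ⟨u, h1, h2, Y, h3, h4⟩ ⟨u', h1', h2', Y', h3', h4'⟩
      refine ⟨u ∪ u', h1.union h1', ?_, Y ∪ Y', hC.base.union hinf h3 h3', ?_⟩
      · rintro s (hs | hs)
        · exact h2 s hs
        · exact h2' s hs
      · rw [Set.biUnion_union]
        rintro x (hx | hx)
        · rcases h4 hx with (h5 | h5) | h5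
          · exact Or.inl (Or.inl (Or.inl h5))
          · exact Or.inl (Or.inr h5)
          · exact Or.inr (Or.inl h5)
        · rcases h4' hx with (h5 | h5) | h5
          · exact Or.inl (Or.inl (Or.inr h5))
          · exact Or.inl (Or.inr h5)
          · exact Or.inr (Or.inr h5)
  have hBK : B ⊆ K0 := by
    intro Y hY
    exact ⟨∅, Set.finite_empty, fun s hs => absurd hs (Set.notMem_empty _), Y, hY,
      fun x hx => Or.inl (Or.inl hx)⟩
  have hAc : Aᶜ ∈ K0 := ⟨∅, Set.finite_empty, fun s hs => absurd hs (Set.notMem_empty _), ∅,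
    hC.base.empty hinf, fun x hx => Or.inl (Or.inr hx)⟩
  have hnd := hmax K0 ⟨huniv, hKI.down, hKI.sUnion⟩ hBK
  obtain ⟨rho, b', h1, h2, h3, h4, h5, h6⟩ :=
    exists_tcf_trace hinf hKI hC.Lreg (loc_small hC) hnd
  have hadm : Adm ℵ₀ L B rho (Tr K0 b') := ⟨h5, hBK.trans (Tr_sub hKI b'), h6⟩
  have hAc' : Aᶜ ∈ Tr K0 b' := Tr_sub hKI b' hAc
  have hnA : A ∉ Tr K0 b' := by
    intro h
    have h7 := h5.isKI.union hinf h hAc'
    rw [Set.union_compl_self] at h7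
    exact h5.univ_notMem h7
  have hle : rho ≤ lam := by
    by_contra hcon
    exact hnd (h2.anti (Order.succ_le_of_lt (not_le.1 hcon)))
  have hne : rho ≠ lam := by
    rintro rfl
    exact hnA (hA _ hadm)
  let s : PT ℵ₀ L B lam := ⟨rho, ⟨_, hadm⟩, lt_of_le_of_ne hle hne⟩
  have hAs : A ∉ Jst ℵ₀ L B s.1 := fun h => hnA (h _ hadm)
  have hbs : bh s ∈ Tr K0 b' := by
    apply Tr_sub hKI b'
    refine ⟨{s}, Set.finite_singleton _, fun t ht => ?_, ∅, hC.base.empty hinf, ?_⟩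
    · rw [Set.mem_singleton_iff] at ht
      rw [ht]; exact hAs
    · intro x hx
      right
      exact Set.mem_biUnion (Set.mem_singleton s) hx
  have h8 := h5.isKI.union hinf hbs (hbc s _ hadm)
  rw [Set.union_compl_self] at h8
  exact h5.univ_notMem h8

end

end Pool.Agent.PcfUnc
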