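import Pool.Agent.PcfInc.Basics

/-!
Finite sets of points indexed by an uncountable regular cardinal: if no small set contains
unboundedly many of them, then one point of some of them can be chosen with the same property.
-/

universe u w

open Cardinal Ordinal Set Pool.Agent.Helper6.Pcf Pool.Agent.PcfInc

namespace Pool.Agent.PcfUnc

section

variable {kappa : Cardinal.{u}} {P : Type w}

/-- the property for sets with `m` elements -/
def QL (kappa : Cardinal.{u}) (S : Set (Set P)) (u : kappa.ord.ToType → Set P) (m : ℕ) : Prop :=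
  ∃ (y : Set kappa.ord.ToType) (v : kappa.ord.ToType → Set P),
    y ∉ Jbd kappa.ord.ToType ∧ (∀ d ∈ y, v d ⊆ u d ∧ (v d).ncard = m) ∧
    ∀ U ∈ S, {d | d ∈ y ∧ v d ⊆ U} ∈ Jbd kappa.ord.ToType

theorem QL_step (hk : kappa.IsRegular) {S : Set (Set P)}
    (hSu : ∀ U V, U ∈ S → V ∈ S → U ∪ V ∈ S) {u : kappa.ord.ToType → Set P}
    (hfin : ∀ d, (u d).Finite) (m : ℕ) (h : QL kappa S u (m + 2)) :
    QL kappa S u 1 ∨ QL kappa S u (m + 1) := by
  classical
  have hJ := Jbd_ideal hk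
  obtain ⟨y, v, hy, hv, hU⟩ := h
  have hp : ∀ d, ∃ x : P, d ∈ y → x ∈ v d := by
    intro d
    by_cases hd : d ∈ y
    · have h1 : (v d).Nonempty := by
        rw [Set.nonempty_iff_ne_empty]
        intro h2
        have h3 := (hv d hd).2
        rw [h2, Set.ncard_empty] at h3
        omega
      obtain ⟨x, hx⟩ := h1
      exact ⟨x, fun _ => hx⟩
    · by_cases hne : ∃ d' ∈ y, (v d').Nonempty
      · obtain ⟨d', _, x, _⟩ := hne
        exact ⟨x, fun h => absurd h hd⟩
      · exfalso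
        push Not at hne
        apply hy
        refine ⟨d, fun x hx => ?_⟩
        have h3 := (hv x hx).2
        rw [hne x hx, Set.ncard_empty] at h3
        omega
  choose p hp using hp
  by_cases hcase : ∀ U ∈ S, {d | d ∈ y ∧ v d \ {p d} ⊆ U} ∈ Jbd kappa.ord.ToType
  · right
    refine ⟨y, fun d => v d \ {p d}, hy, fun d hd => ⟨Set.sdiff_subset.trans (hv d hd).1, ?_⟩,
      hcase⟩
    have hf : (v d).Finite := (hfin d).subset (hv d hd).1
    rw [Set.ncard_sdiff_singleton_of_mem (hp d hd), (hv d hd).2]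
    rfl
  · left
    push Not at hcase
    obtain ⟨U0, hU0, hy0⟩ := hcase
    refine ⟨{d | d ∈ y ∧ v d \ {p d} ⊆ U0}, fun d => {p d}, hy0, fun d hd => ⟨?_, ?_⟩, ?_⟩
    · rintro x rfl
      exact (hv d hd.1).1 (hp d hd.1)
    · exact Set.ncard_singleton _
    · intro U1 hU1
      refine hJ.down _ _ ?_ (hU _ (hSu _ _ hU0 hU1))
      rintro d ⟨⟨h1, h2⟩, h3⟩
      refine ⟨h1, fun x hx => ?_⟩
      by_cases h4 : x = p d
      · right
        rw [h4]
        exact h3 rfl
      · exact Or.inl (h2 ⟨hx, h4⟩)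

theorem QL_one (hk : kappa.IsRegular) {S : Set (Set P)}
    (hSu : ∀ U V, U ∈ S → V ∈ S → U ∪ V ∈ S) {u : kappa.ord.ToType → Set P}
    (hfin : ∀ d, (u d).Finite) (m : ℕ) (h : QL kappa S u (m + 1)) : QL kappa S u 1 := by
  induction m with
  | zero => exact h
  | succ m ih =>
    rcases QL_step hk hSu hfin m h with h1 | h1
    · exact h1
    · exact ih h1

theorem exists_large (hk : kappa.IsRegular) (hunc : ℵ₀ < kappa) {S : Set (Set P)}
    (hS0 : ∅ ∈ S) (hSu : ∀ U V, U ∈ S → V ∈ S → U ∪ V ∈ S)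
    (u : kappa.ord.ToType → Set P) (hfin : ∀ d, (u d).Finite)
    (hU : ∀ U ∈ S, {d | u d ⊆ U} ∈ Jbd kappa.ord.ToType) :
    ∃ f : kappa.ord.ToType → P, (∀ i, ∃ d, f i ∈ u d) ∧
      ∀ U ∈ S, {i | f i ∈ U} ∈ Jbd kappa.ord.ToType := by
  classical
  have hJ := Jbd_ideal hk
  -- the number of elements is constant on an unbounded set
  obtain ⟨n, hn⟩ : ∃ n : ℕ, {d | (u d).ncard = n} ∉ Jbd kappa.ord.ToType := by
    by_contra hcon
    push Not at hcon
    apply hJ.univ_notMem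
    have h1 : (⋃ n : ULift.{u} ℕ, {d | (u d).ncard = n.down}) ∈ Jbd kappa.ord.ToType := by
      refine hJ.isKI.iUnion _ ?_ (fun n => hcon n.down)
      rw [Cardinal.mk_uLift, Cardinal.mk_nat, Cardinal.lift_aleph0]
      exact hunc
    refine hJ.down _ _ ?_ h1
    intro d _
    exact Set.mem_iUnion.2 ⟨⟨(u d).ncard⟩, rfl⟩
  have hQn : QL kappa S u n := by
    refine ⟨{d | (u d).ncard = n}, u, hn, fun d hd => ⟨subset_rfl, hd⟩, fun U hUS => ?_⟩
    refine hJ.down _ _ ?_ (hU U hUS)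
    rintro d ⟨_, hd⟩
    exact hd
  obtain ⟨y, v, hy, hv, hUv⟩ : QL kappa S u 1 := by
    rcases Nat.eq_zero_or_pos n with h0 | h0
    · exfalso
      obtain ⟨y, v, hy, hv, hUv⟩ := hQn
      apply hy
      refine hJ.down _ _ ?_ (hUv ∅ hS0)
      intro d hd
      refine ⟨hd, ?_⟩
      have h1 := (hv d hd).2
      rw [h0, Set.ncard_eq_zero ((hfin d).subset (hv d hd).1)] at h1
      rw [h1]
    · obtain ⟨m, rfl⟩ := Nat.exists_eq_add_of_le' h0
      exact QL_one hk hSu hfin m hQn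
  have hunb : ∀ i : kappa.ord.ToType, ∃ d ∈ y, i < d := by
    intro i
    by_contra hcon
    push Not at hcon
    exact hy ⟨i, hcon⟩
  choose dl hdl1 hdl2 using hunb
  have hex : ∀ i, ∃ x, v (dl i) = {x} := fun i => Set.ncard_eq_one.1 (hv _ (hdl1 i)).2
  choose f hf using hex
  refine ⟨f, fun i => ⟨dl i, (hv _ (hdl1 i)).1 (by rw [hf]; rfl)⟩, fun U hUS => ?_⟩
  obtain ⟨b, hb⟩ := hUv U hUS
  refine ⟨b, fun i hi => ?_⟩
  have h1 : dl i ≤ b := by
    apply hb
    refine ⟨hdl1 i, ?_⟩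
    rw [hf]
    rintro x rfl
    exact hi
  exact (hdl2 i).le.trans h1

end

end Pool.Agent.PcfUnc
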