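import Pool.Agent.PcfUnc.CoreT

universe u w

open Cardinal Ordinal Set Pool.Agent.Helper6.Pcf

namespace Pool.Agent.PcfUnc

variable {I : Type u} {sg kappa lam : Cardinal.{u}} {L : I → Cardinal.{u}} {B : Set (Set I)}

theorem loc_small (hC : CoreT sg kappa L B lam) : ∀ x, #(Set I) < L x := by
  intro x
  refine lt_of_le_of_lt ?_ (hC.Lbig x)
  rw [Cardinal.mk_set]
  exact Cardinal.power_le_power_left two_ne_zero hC.card

theorem loc_adm (hC : CoreT sg kappa L B lam) {th : Cardinal.{u}} (h : InP sg L B th) :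
    Adm sg L B th (Jst sg L B th) :=
  Jst_adm hC.sinf hC.Lreg (loc_small hC) h

theorem loc_DT (hC : CoreT sg kappa L B lam) : ∀ x, #(DT kappa) < L x := by
  intro x; rw [mk_DT]; exact hC.Lbig x

theorem loc_big (hC : CoreT sg kappa L B lam) {th : Cardinal.{u}} (h : InP sg L B th) :
    (2 : Cardinal.{u}) ^ kappa < th := by
  have h1 := loc_adm hC h
  rw [← mk_DT]
  exact TCF.lt_of_small h1.1 hC.sinf hC.Lreg (loc_DT hC) h1.2.2

theorem loc_kappa_lt (hC : CoreT sg kappa L B lam) {th : Cardinal.{u}} (h : InP sg L B th) :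
    kappa < th := (Cardinal.cantor kappa).trans (loc_big hC h)

theorem loc_succ_lt (hC : CoreT sg kappa L B lam) {th : Cardinal.{u}} (h : InP sg L B th) :
    Order.succ kappa < th :=
  lt_of_le_of_lt (Order.succ_le_of_lt (Cardinal.cantor kappa)) (loc_big hC h)

theorem PT_emb (hC : CoreT sg kappa L B lam) : ∃ e : PT sg L B lam → DT kappa,
    Function.Injective e := by
  classical
  have hg : ∀ s : PT sg L B lam, ∃ b : Set I, bᶜ ∈ Jst sg L B s.1 ∧
      ∀ K : Set (Set I), IsKI sg K → B ⊆ K → Dir L K (Order.succ s.1) → b ∈ K :=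
    fun s => exists_gen hC.sinf hC.Lreg (loc_small hC) s.2.1
  choose b hb1 hb2 using hg
  have hbinj : Function.Injective b := by
    have key : ∀ s t : PT sg L B lam, s.1 < t.1 → b s ≠ b t := by
      intro s t hst heq
      have ht := loc_adm hC t.2.1
      have h1 : b s ∈ Jst sg L B t.1 := by
        apply hb2 s _ ht.1.isKI ht.2.1
        exact (ht.2.2.dir ht.1.isKI hC.sinf).anti (Order.succ_le_of_lt hst)
      have h2 := hb1 t
      rw [heq] at h1
      have h3 := ht.1.isKI.union hC.sinf h1 h2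
      rw [Set.union_compl_self] at h3
      exact ht.1.univ_notMem h3
    intro s t hst
    rcases lt_trichotomy s.1 t.1 with h | h | h
    · exact absurd hst (key s t h)
    · exact Subtype.ext h
    · exact absurd hst.symm (key t s h)
  have hle : #(Set I) ≤ #(DT kappa) := by
    rw [Cardinal.mk_set, mk_DT]
    exact Cardinal.power_le_power_left two_ne_zero hC.card
  obtain ⟨e⟩ := (Cardinal.le_def _ _).1 hle
  exact ⟨fun s => e (b s), e.injective.comp hbinj⟩

theorem exists_goodSys (hC : CoreT sg kappa L B lam) :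
    ∃ F : PT sg L B lam → Ordinal.{u} → I → Ordinal.{u}, GoodSys F := by
  have h : ∀ s : PT sg L B lam, _ := fun s =>
    TCF.exists_cont (loc_adm hC s.2.1).1.isKI hC.sinf hC.Lreg
      (loc_adm hC s.2.1).2.2
  choose F h1 h2 h3 h4 using h
  exact ⟨F, ⟨h1, h2, h3, h4⟩⟩

section

variable {F : PT sg L B lam → Ordinal.{u} → I → Ordinal.{u}}

theorem kf_mem (hC : CoreT sg kappa L B lam) (hF : GoodSys F) {g : I → Ordinal.{u}}
    (hg : InProd L g) (s : PT sg L B lam) :
    kf F g s < s.1.ord ∧ LeMod (Jst sg L B s.1) g (F s (kf F g s)) := by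
  have hne : {a | a < s.1.ord ∧ LeMod (Jst sg L B s.1) g (F s a)}.Nonempty := by
    obtain ⟨a, ha, h⟩ := hF.cof s g hg
    exact ⟨a, ha, LtMod.leMod (loc_adm hC s.2.1).1.isKI h⟩
  exact csInf_mem hne

theorem gs_mono (hC : CoreT sg kappa L B lam) (hF : GoodSys F) (s : PT sg L B lam)
    {a b : Ordinal.{u}} (hab : a ≤ b) (hb : b < s.1.ord) :
    LeMod (Jst sg L B s.1) (F s a) (F s b) := by
  have hK := (loc_adm hC s.2.1).1.isKI
  rcases hab.lt_or_eq with h | h
  · exact LtMod.leMod hK (hF.inc s a b h hb)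
  · subst h; exact LeMod.refl hK hC.sinf _

/-- `F s a ≤ F s b` modulo the ideal forces `a ≤ b`. -/
theorem gs_le_of_leMod (hC : CoreT sg kappa L B lam) (hF : GoodSys F)
    (s : PT sg L B lam) {a b : Ordinal.{u}} (ha : a < s.1.ord)
    (h : LeMod (Jst sg L B s.1) (F s a) (F s b)) : a ≤ b := by
  by_contra hcon
  rw [not_le] at hcon
  exact not_ltMod_of_leMod (loc_adm hC s.2.1).1 hC.sinf (hF.inc s b a hcon ha) h

theorem vl_lt (hC : CoreT sg kappa L B lam) (hF : GoodSys F) (l : List (PT sg L B lam)) :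
    ∀ p : PT sg L B lam × Ordinal.{u}, p.2 < p.1.1.ord → (vl F p l).2 < (vl F p l).1.1.ord := by
  induction l with
  | nil => intro p hp; exact hp
  | cons th l ih =>
    intro p hp
    exact ih _ (kf_mem hC hF (hF.inp p.1 p.2 hp) th).1

/-- A function bounding all iterated compositions. -/
theorem exists_hat (hC : CoreT sg kappa L B lam) (hF : GoodSys F) :
    ∃ H : PT sg L B lam → Ordinal.{u} → I → Ordinal.{u},
      ∀ s a, a < s.1.ord → InProd L (H s a) ∧
        ∀ l x, F (vl F (s, a) l).1 (vl F (s, a) l).2 x ≤ H s a x := by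
  classical
  obtain ⟨e, he⟩ := PT_emb hC
  obtain ⟨e', he'⟩ := list_emb hC.kinf e he
  have h : ∀ (s : PT sg L B lam) (a : Ordinal.{u}), ∃ g : I → Ordinal.{u}, a < s.1.ord →
      InProd L g ∧ ∀ l x, F (vl F (s, a) l).1 (vl F (s, a) l).2 x ≤ g x := by
    intro s a
    by_cases ha : a < s.1.ord
    · obtain ⟨g, hg1, hg2⟩ := exists_bound hC.Lreg (loc_DT hC) e' he'
        (fun l => F (vl F (s, a) l).1 (vl F (s, a) l).2)
        (fun l => hF.inp _ _ (vl_lt hC hF l (s, a) ha))
      exact ⟨g, fun _ => ⟨hg1, hg2⟩⟩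
    · exact ⟨fun _ => 0, fun h => absurd h ha⟩
  choose H hH using h
  exact ⟨H, hH⟩

/-- One function strictly above the bounds of all `H s`, modulo the ideal of `lam`. -/
theorem exists_top (hC : CoreT sg kappa L B lam)
    {H : PT sg L B lam → Ordinal.{u} → I → Ordinal.{u}}
    (hH : ∀ s a, a < s.1.ord → InProd L (H s a)) :
    ∃ h : I → Ordinal.{u}, InProd L h ∧ ∀ s a, a < s.1.ord →
      {x | h x ≤ H s a x} ∈ Jst sg L B lam := by
  classical
  have hlam := loc_adm hC hC.lamP
  have hdir := hlam.2.2.dir hlam.1.isKI hC.sinf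
  have h1 : ∀ s : PT sg L B lam, ∃ g, InProd L g ∧ ∀ i : s.1.ord.ToType,
      {x | g x < H s (ToType.toOrd i).1 x} ∈ Jst sg L B lam := by
    intro s
    exact hdir s.1.ord.ToType (fun i => H s (ToType.toOrd i).1)
      (by rw [Cardinal.mk_ord_toType]; exact s.2.2) (fun i => hH s _ (ToType.toOrd i).2)
  choose g hg1 hg2 using h1
  obtain ⟨e, he⟩ := PT_emb hC
  obtain ⟨h0, hh1, hh2⟩ := exists_bound hC.Lreg (loc_DT hC) e he g hg1
  refine ⟨fun x => h0 x + 1, inProd_add_one hC.Lreg hh1, fun s a ha => ?_⟩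
  have h2 := hg2 s (ToType.mk ⟨a, ha⟩)
  refine hlam.1.down _ _ ?_ h2
  intro x hx
  have hx' : h0 x + 1 ≤ H s a x := hx
  have h3 : g s x < H s a x :=
    lt_of_le_of_lt (hh2 s x) (lt_of_lt_of_le (Order.lt_add_one_iff.2 le_rfl) hx')
  simpa using h3

end

end Pool.Agent.PcfUnc
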