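import Pool.Agent.PcfUnc.TwoB

universe u w

open Cardinal Ordinal Set Pool.Agent.Helper6.Pcf

namespace Pool.Agent.PcfUnc

variable {I : Type u} {sg kappa lam : Cardinal.{u}} {L : I → Cardinal.{u}} {B : Set (Set I)}
  {F : PT sg L B lam → Ordinal.{u} → I → Ordinal.{u}}

section

variable {h : I → Ordinal.{u}} {G : Ordinal.{u} → I → Ordinal.{u}}
  {C : Ordinal.{u} → PT sg L B lam → Ordinal.{u}} {g : I → Ordinal.{u}}
  {c : PT sg L B lam → Ordinal.{u}} {H : PT sg L B lam → Ordinal.{u} → I → Ordinal.{u}}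

theorem Bhat_mem (hC : CoreT sg kappa L B lam)
    (hH : ∀ s a, a < s.1.ord → InProd L (H s a) ∧
        ∀ l x, F (vl F (s, a) l).1 (vl F (s, a) l).2 x ≤ H s a x)
    (hh : ∀ s a, a < s.1.ord → {x | h x ≤ H s a x} ∈ Jst sg L B lam)
    (hl : LimT kappa F h G C g c) (s : PT sg L B lam) :
    Bhat F g c s ∈ Jst sg L B lam := by
  refine (loc_adm hC hC.lamP).1.down _ _ ?_ (hh s (c s) (hl.clt s))
  rintro x ⟨l, _, h2⟩
  exact (hl.htop x).trans (h2.trans ((hH s (c s) (hl.clt s)).2 l x))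

theorem Bhat_compl (hC : CoreT sg kappa L B lam) (hF : GoodSys F) (hch : ChainT kappa F h G C)
    (hl : LimT kappa F h G C g c) (s : PT sg L B lam) :
    (Bhat F g c s)ᶜ ∈ Jst sg L B s.1 := by
  refine (loc_adm hC s.2.1).1.down _ _ ?_ (lim_g_le_F hC hF hch hl s)
  intro x hx
  by_contra hcon
  apply hx
  exact ⟨[], rfl, not_lt.1 hcon⟩

theorem DS_ideal (hC : CoreT sg kappa L B lam) {T : Type u} (f : T → PT sg L B lam)
    {K : Set (Set T)} (hK : IsKIdeal sg K) : IsKIdeal sg (DS f K) := by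
  have hJ := fun t => (loc_adm hC (f t).2.1).1
  refine ⟨fun h => ?_, fun X Y hXY hY => ?_, fun S hS hcard => ?_⟩
  · apply hK.univ_notMem
    have h1 : {t | (Set.univ : Set I) ∉ Jst sg L B (f t).1} = Set.univ := by
      ext t
      simp only [Set.mem_univ, iff_true]
      exact (hJ t).univ_notMem
    rw [← h1]; exact h
  · refine hK.down _ _ ?_ hY
    intro t ht hcon
    exact ht ((hJ t).down _ _ hXY hcon)
  · have h1 := hK.isKI.iUnion (T := S) (fun X => {t | X.1 ∉ Jst sg L B (f t).1}) hcard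
      (fun X => hS X.2)
    refine hK.down _ _ ?_ h1
    intro t ht
    by_contra hcon
    apply ht
    refine (hJ t).sUnion S ?_ hcard
    intro X hX
    by_contra hX2
    exact hcon (Set.mem_iUnion.2 ⟨⟨X, hX⟩, hX2⟩)

theorem DS_base (hC : CoreT sg kappa L B lam) {T : Type u} (f : T → PT sg L B lam)
    {K : Set (Set T)} (hK : IsKIdeal sg K) : B ⊆ DS f K := by
  intro X hX
  have h1 : {t | X ∉ Jst sg L B (f t).1} = ∅ := by
    ext t
    simp only [Set.mem_empty_iff_false, iff_false]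
    intro h
    exact h ((loc_adm hC (f t).2.1).2.1 hX)
  show {t | X ∉ Jst sg L B (f t).1} ∈ K
  rw [h1]; exact hK.isKI.empty hC.sinf

theorem DS_tcf (hC : CoreT sg kappa L B lam) (hF : GoodSys F) {T : Type u} (hT : #T ≤ kappa)
    (f : T → PT sg L B lam)
    {K : Set (Set T)} (hK : IsKIdeal sg K) {rho : Cardinal.{u}}
    (ht : TCF (fun t => (f t).1) K rho) : TCF L (DS f K) rho := by
  classical
  have hk := hC.sinf
  have hJ := fun t => (loc_adm hC (f t).2.1).1
  have hfreg : ∀ t, (f t).1.IsRegular := fun t => loc_regular (f t).2.1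
  have hdir := ht.dir hK.isKI hk
  have hTL : ∀ x, #T < L x := fun x =>
    lt_of_le_of_lt (hT.trans (Cardinal.cantor kappa).le) (hC.Lbig x)
  have hD := DS_ideal hC f hK
  -- the transfer of a bound
  have key : ∀ (m : T → Ordinal.{u}), InProd (fun t => (f t).1) m →
      ∃ Gm, InProd L Gm ∧ ∀ p : I → Ordinal.{u}, InProd L p →
        LeMod K (fun t => kf F p (f t)) m → LeMod (DS f K) p Gm := by
    intro m hm
    obtain ⟨Gm, h1, h2⟩ := exists_bound0 hC.Lreg hTL (fun t => F (f t) (m t))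
      (fun t => hF.inp _ _ (hm t))
    refine ⟨Gm, h1, fun p hp hpm => ?_⟩
    refine hK.down _ _ ?_ hpm
    intro t ht1
    by_contra hcon
    apply ht1
    have hcon' : kf F p (f t) ≤ m t := not_lt.1 hcon
    have h3 := (kf_mem hC hF hp (f t)).2
    exact (h3.trans (hJ t).isKI hk (gs_mono hC hF (f t) hcon' (hm t))).trans_le (hJ t).isKI (h2 t)
  obtain ⟨hsreg, e, he1, he2, he3⟩ := ht
  have hGx : ∀ i : rho.ord.ToType, ∃ Gm, InProd L Gm ∧ ∀ p : I → Ordinal.{u}, InProd L p →
        LeMod K (fun t => kf F p (f t)) (e (ToType.toOrd i).1) → LeMod (DS f K) p Gm :=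
    fun i => key _ (he1 _ (ToType.toOrd i).2)
  choose Gx hGx1 hGx2 using hGx
  refine TCF.of_dir_cof hD.isKI hk hC.Lreg hsreg ?_ Gx hGx1 id Function.injective_id ?_
  · intro T1 p hT1 hp
    obtain ⟨m, hm1, hm2⟩ := hdir T1 (fun u t => kf F (p u) (f t)) hT1
      (fun u t => (kf_mem hC hF (hp u) (f t)).1)
    obtain ⟨Gm, h1, h2⟩ := key m hm1
    exact ⟨Gm, h1, fun u => h2 (p u) (hp u) (hm2 u)⟩
  · intro q hq
    obtain ⟨a, ha, hlt⟩ := he3 (fun t => kf F q (f t)) (fun t => (kf_mem hC hF hq (f t)).1)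
    refine ⟨ToType.mk ⟨a, ha⟩, hGx2 _ q hq ?_⟩
    simp only [OrderIso.symm_apply_apply]
    exact LtMod.leMod hK.isKI hlt

theorem DS_adm (hC : CoreT sg kappa L B lam) (hF : GoodSys F) {T : Type u} (hT : #T ≤ kappa)
    (f : T → PT sg L B lam) {K : Set (Set T)} (hK : IsKIdeal sg K) {rho : Cardinal.{u}}
    (ht : TCF (fun t => (f t).1) K rho) : Adm sg L B rho (DS f K) :=
  ⟨DS_ideal hC f hK, DS_base hC f hK, DS_tcf hC hF hT f hK ht⟩

theorem Bhat_trans (hC : CoreT sg kappa L B lam) (hF : GoodSys F) (hch : ChainT kappa F h G C)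
    (hl : LimT kappa F h G C g c) {T : Type u} (hT : #T ≤ kappa) (f : T → PT sg L B lam)
    {K : Set (Set T)} (hK : IsKIdeal sg K) (s : PT sg L B lam)
    (ht : TCF (fun t => (f t).1) K s.1) :
    {t | ¬ Bhat F g c (f t) ⊆ Bhat F g c s} ∈ K := by
  classical
  have hk := hC.sinf
  have hJ := fun t => (loc_adm hC (f t).2.1).1
  have hfreg : ∀ t, (f t).1.IsRegular := fun t => loc_regular (f t).2.1
  have hadm := DS_adm hC hF hT f hK ht
  have hsubD : Jst sg L B s.1 ⊆ DS f K := loc_sub hadm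
  have hle : {t | c (f t) < kf F (F s (c s)) (f t)} ∈ K := by
    have h1 : {x | g x < F s (c s) x} ∈ DS f K := hsubD (lim_F_le_g hC hF hch hl s)
    refine hK.down _ _ ?_ h1
    intro t ht1 ht2
    have h2 : LeMod (Jst sg L B (f t).1) (F s (c s)) g := ht2
    have h3 := h2.trans (hJ t).isKI hk (lim_g_le_F hC hF hch hl (f t))
    exact absurd (kf_le (hl.clt (f t)) h3) (not_le.2 ht1)
  have hge : {t | kf F (F s (c s)) (f t) < c (f t)} ∈ K := by
    refine stab hC hT hK.down (fun a => {t | kf F (F s (c s)) (f t) < C a (f t)}) ?_ ?_ _ ?_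
    · intro a b hb ha t ht1
      exact lt_trans (show kf F (F s (c s)) (f t) < C b (f t) from ht1) (hch.Cmono a b hb ha (f t))
    · intro a ha
      have ha1 := succ_ord_add hC.kinf ha
      have ha2 := succ_ord_add hC.kinf ha1
      have h1 : {x | F s (c s) x < G (a + 1) x} ∈ DS f K := by
        apply hsubD
        exact lim_G_le_F hC hF hch ha1 s (hl.Cle _ ha2 s).le (hl.clt s)
      refine hK.down _ _ ?_ h1
      intro t ht1 ht2
      have h2 : LeMod (Jst sg L B (f t).1) (G (a + 1)) (F s (c s)) := ht2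
      have h3 : LeMod (Jst sg L B (f t).1) (F (f t) (C a (f t) + 1)) (F s (c s)) :=
        LeMod.le_trans (hJ t).isKI
          (hch.GF (a + 1) a (Order.lt_add_one_iff.2 le_rfl) ha1 (f t)) h2
      have h4 := kf_mem hC hF (hF.inp s (c s) (hl.clt s)) (f t)
      have h5 := h3.trans (hJ t).isKI hk h4.2
      have h6 := gs_le_of_leMod hC hF (f t)
        (lt_add_one_ord (hfreg t) (hch.Clt a ha (f t))) h5
      have h7 : kf F (F s (c s)) (f t) < C a (f t) := ht1
      exact absurd h7 (not_lt.2 ((Order.lt_add_one_iff.2 le_rfl).le.trans h6))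
    · intro t ht1
      exact hl.csup (f t) _ ht1
  refine hK.down _ _ ?_ (hK.isKI.union hk hle hge)
  intro t ht1
  by_contra hcon
  apply ht1
  apply Bhat_sub
  by_contra hne
  rcases lt_or_gt_of_ne hne with h1 | h1
  · exact hcon (Or.inr h1)
  · exact hcon (Or.inl h1)

end

end Pool.Agent.PcfUnc
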