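import Pool.Agent.PcfUnc.UncMain
import Pool.Agent.PcfInc.Inc1

/-!
Uncountable cofinality: the final form.
-/

universe u

open Cardinal Ordinal Set Pool.Agent.Helper6.Pcf Pool.Agent.PcfInc

namespace Pool.Agent.PcfUnc

/-- pushing a true cofinality forward along an injection of index sets -/
theorem TCF_push {I A : Type u} {L : I → Cardinal.{u}} {s : A → Cardinal.{u}} {e : A → I}
    (he : Function.Injective e) (hL : ∀ i, L (e i) = s i) (hreg : ∀ x, (L x).IsRegular)
    {K : Set (Set A)} (hK : IsKI ℵ₀ K) {th : Cardinal.{u}} (hT : TCF s K th) :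
    TCF L {X : Set I | e ⁻¹' X ∈ K} th := by
  classical
  obtain ⟨hth, F, hF1, hF2, hF3⟩ := hT
  have hval : ∀ a i, (if h : ∃ j, e j = e i then F a h.choose else 0) = F a i := by
    intro a i
    have h : ∃ j, e j = e i := ⟨i, rfl⟩
    rw [dif_pos h, he h.choose_spec]
  refine ⟨hth, fun a x => if h : ∃ j, e j = x then F a h.choose else 0, fun a ha x => ?_,
    fun a b hab hb => ?_, fun g hg => ?_⟩
  · by_cases h : ∃ j, e j = x
    · obtain ⟨i, rfl⟩ := h
      show (if h : ∃ j, e j = e i then F a h.choose else 0) < _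
      rw [hval, hL]
      exact hF1 a ha i
    · show (if h : ∃ j, e j = x then F a h.choose else 0) < _
      rw [dif_neg h]
      exact (hreg x).ord_pos
  · refine hK.down _ _ ?_ (hF2 a b hab hb)
    intro i hi
    have h1 : (if h : ∃ j, e j = e i then F b h.choose else 0) ≤
        (if h : ∃ j, e j = e i then F a h.choose else 0) := hi
    rw [hval, hval] at h1
    exact h1
  · obtain ⟨a, ha, h1⟩ := hF3 (fun i => g (e i)) (fun i => by
      rw [← hL i]; exact hg (e i))
    refine ⟨a, ha, hK.down _ _ ?_ h1⟩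
    intro i hi
    have h2 : (if h : ∃ j, e j = e i then F a h.choose else 0) ≤ g (e i) := hi
    rw [hval] at h2
    exact h2

/-- the true cofinalities of the subfamilies with fewer than `kappa` members, all above `c` -/
def SmallPcf {I : Type u} (kappa c : Cardinal.{u}) (L : I → Cardinal.{u}) : Set Cardinal.{u} :=
  {th | ∃ (b : Set I) (K : Set (Set I)), #b < kappa ∧ (∀ x ∈ b, c < L x) ∧ IsKIdeal ℵ₀ K ∧
    bᶜ ∈ K ∧ TCF L K th}

theorem unc_final {kappa mu lam : Cardinal.{u}} (hk : kappa.IsRegular) (hunc : ℵ₀ < kappa)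
    (hcof : mu.ord.cof = kappa) (hbig : (2 : Cardinal.{u}) ^ kappa < mu) {I0 : Type u}
    (L0 : I0 → Cardinal.{u}) (J0 : Set (Set I0)) (hrep : IsRep kappa mu lam L0 J0)
    (c : Cardinal.{u}) (hc : c < mu) :
    (∃ s : kappa.ord.ToType → Cardinal.{u}, StrictMono s ∧ (∀ i, s i ∈ SmallPcf kappa c L0) ∧
      IsLUB (Set.range s) mu ∧ TCF s (Jbd kappa.ord.ToType) lam) ∨
    lam ∈ SmallPcf kappa c L0 ∨
    ∃ (chi : Cardinal.{u}) (t : kappa.ord.ToType → Cardinal.{u}), mu < chi ∧ chi < lam ∧
      StrictMono t ∧ (∀ i, mu < t i ∧ t i ∈ SmallPcf kappa c L0) ∧ IsLUB (Set.range t) chi ∧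
      TCF t (Jbd kappa.ord.ToType) lam := by
  classical
  obtain ⟨s, J, h1, h2, h3, h4, h5, h6⟩ := exists_inc hk hcof hbig L0 J0 hrep
  choose e he using fun i => (h2 i).1
  have hinj : Function.Injective e := by
    intro i j hij
    apply h1.injective
    rw [← he i, ← he j, hij]
  have hreg : ∀ i, (s i).IsRegular := by
    intro i
    rw [← he i]
    exact hrep.reg _
  have hpush : ∀ th, SmallTc s c th → th ∈ SmallPcf kappa c L0 := by
    rintro th ⟨d, K, hK1, hK2, hK3⟩
    refine ⟨e '' {i | i < d ∧ c < s i}, {X : Set I0 | e ⁻¹' X ∈ K}, ?_, ?_, ⟨?_, ?_, ?_⟩, ?_,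
      TCF_push hinj he hrep.reg hK1.isKI hK3⟩
    · refine lt_of_le_of_lt Cardinal.mk_image_le ?_
      refine lt_of_le_of_lt (Cardinal.mk_le_mk_of_subset (t := Set.Iio d) fun i hi => hi.1) ?_
      exact mk_Iio_toType_ord_lt d
    · rintro _ ⟨i, hi, rfl⟩
      rw [he]; exact hi.2
    · intro h
      exact hK1.univ_notMem h
    · intro X Y hXY hY
      exact hK1.down _ _ (Set.preimage_mono hXY) hY
    · intro S hS hcard
      show e ⁻¹' (⋃₀ S) ∈ K
      have h8 : IsKI ℵ₀ {X : Set I0 | e ⁻¹' X ∈ K} := by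
        refine isKI_of_fin ?_ ?_ ?_
        · show e ⁻¹' ∅ ∈ K
          rw [Set.preimage_empty]; exact hK1.isKI.empty le_rfl
        · intro X Y hXY hY
          exact hK1.down _ _ (Set.preimage_mono hXY) hY
        · intro X Y hX hY
          show e ⁻¹' (X ∪ Y) ∈ K
          rw [Set.preimage_union]
          exact hK1.isKI.union le_rfl hX hY
      exact h8.sUnion S hS hcard
    · show e ⁻¹' (e '' {i | i < d ∧ c < s i})ᶜ ∈ K
      refine hK1.down _ _ ?_ hK2
      intro i hi hi2
      exact hi ⟨i, hi2, rfl⟩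
  rcases unc_main hk hunc s h1 hreg (fun i => (h2 i).2) h3 J h4 h5 h6 c hc with
    h | ⟨chi, t, g1, g2, g3, g4, g5, g6⟩
  · exact Or.inr (Or.inl (hpush _ h))
  · rcases g1.lt_or_eq with hlt | heq
    · right; right
      obtain ⟨i0, hi0⟩ := lub_ex g5 hlt
      have hJ := Jbd_ideal hk
      let f : kappa.ord.ToType → Cardinal.{u} := fun i => if i0 ≤ i then t i else t i0
      have hfm : ∀ i, ∃ j, i0 ≤ j ∧ f i = t j := by
        intro i
        by_cases hi : i0 ≤ i
        · exact ⟨i, hi, if_pos hi⟩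
        · exact ⟨i0, le_rfl, if_neg hi⟩
      have htreg : ∀ i, (t i).IsRegular := by
        intro i
        obtain ⟨d, K, _, _, hK3⟩ := g4 i
        exact hK3.1
      have hbig' : ∀ i, kappa < f i := by
        intro i
        obtain ⟨j, hj, hj2⟩ := hfm i
        rw [hj2]
        refine lt_of_lt_of_le ?_ (g3.monotone hj)
        exact ((Cardinal.cantor kappa).trans hbig).trans hi0
      have hlt' : ∀ i, f i < lam := by
        intro i
        obtain ⟨j, hj, hj2⟩ := hfm i
        rw [hj2]
        exact lt_of_le_of_lt (g5.1 ⟨j, rfl⟩) g2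
      have hb : IsKIdeal kappa (Tr (Jbd kappa.ord.ToType) {i | i0 ≤ i}) := by
        have hTr := Tr_isKI hJ.isKI {i | i0 ≤ i}
        refine ⟨fun h => hJ.univ_notMem ?_, hTr.down, hTr.sUnion⟩
        have h7 : Set.univ ∩ {i | i0 ≤ i} ∈ Jbd kappa.ord.ToType := h
        rw [Set.univ_inter] at h7
        refine hJ.down _ _ ?_ (hJ.isKI.union hk.aleph0_le h7
          (show Set.Iic i0 ∈ Jbd kappa.ord.ToType from ⟨i0, fun x hx => hx⟩))
        intro i _
        rcases le_total i0 i with h8 | h8
        · exact Or.inl h8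
        · exact Or.inr h8
      have hTf : TCF f (Tr (Jbd kappa.ord.ToType) {i | i0 ≤ i}) lam := by
        have hTt := TCF_mono (Tr_sub hJ.isKI {i | i0 ≤ i}) g6
        obtain ⟨q1, G, q2, q3, q4⟩ := hTt
        refine ⟨q1, fun a i => if i0 ≤ i then G a i else 0, fun a ha i => ?_, fun a b hab hb' => ?_,
          fun g hg => ?_⟩
        · by_cases hi : i0 ≤ i
          · simp only [f, hi, if_true]; exact q2 a ha i
          · simp only [f, hi, if_false]; exact (htreg i0).ord_pos
        · have h7 : {i | G b i ≤ G a i} ∩ {i | i0 ≤ i} ∈ Jbd kappa.ord.ToType := q3 a b hab hb'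
          refine hJ.down _ _ ?_ h7
          rintro i ⟨hi1, hi2⟩
          have hi2' : i0 ≤ i := hi2
          have hi1' : (if i0 ≤ i then G b i else 0) ≤ (if i0 ≤ i then G a i else 0) := hi1
          simp only [hi2', if_true] at hi1'
          exact ⟨hi1', hi2⟩
        · obtain ⟨a, ha, h7⟩ := q4 (fun i => if i0 ≤ i then g i else 0) (by
            intro i
            by_cases hi : i0 ≤ i
            · simp only [hi, if_true]
              have := hg i
              simp only [f, hi, if_true] at this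
              exact this
            · simp only [hi, if_false]; exact (htreg i).ord_pos)
          refine ⟨a, ha, ?_⟩
          have h8 : {i | G a i ≤ (if i0 ≤ i then g i else 0)} ∩ {i | i0 ≤ i} ∈
            Jbd kappa.ord.ToType := h7
          refine hJ.down _ _ ?_ h8
          rintro i ⟨hi1, hi2⟩
          have hi2' : i0 ≤ i := hi2
          have hi1' : (if i0 ≤ i then G a i else 0) ≤ g i := hi1
          simp only [hi2', if_true] at hi1'
          refine ⟨?_, hi2⟩
          show G a i ≤ (if i0 ≤ i then g i else 0)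
          simp only [hi2', if_true]
          exact hi1'
      obtain ⟨chi', t', r1, r2, r3, r4, r5, r6⟩ := inc_of_seq hk f (fun i => by
        obtain ⟨j, _, hj2⟩ := hfm i
        rw [hj2]; exact htreg j) hbig' hlt' {i | i0 ≤ i} hb hTf
      have hmem : ∀ i, mu < t' i ∧ t' i ∈ SmallPcf kappa c L0 := by
        intro i
        obtain ⟨j, hj⟩ := r2 i
        obtain ⟨j', hj', hj2⟩ := hfm j
        rw [hj, hj2]
        exact ⟨lt_of_lt_of_le hi0 (g3.monotone hj'), hpush _ (g4 j')⟩
      refine ⟨chi', t', ?_, r4, r1, hmem, r3, r6⟩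
      exact lt_of_lt_of_le (hmem i0).1 (r3.1 ⟨i0, rfl⟩)
    · left
      refine ⟨t, g3, fun i => hpush _ (g4 i), ?_, g6⟩
      rw [heq]; exact g5

end Pool.Agent.PcfUnc
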