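import Pool.Agent.PcfUnc.FinCov
import Pool.Agent.PcfUnc.Large
import Pool.Agent.PcfInc.Sub

/-!
Uncountable cofinality.
-/

universe u

open Cardinal Ordinal Set Pool.Agent.Helper6.Pcf Pool.Agent.PcfInc

namespace Pool.Agent.PcfUnc

theorem ideal_anti {I : Type u} {sg kappa : Cardinal.{u}} (h : sg ≤ kappa) {K : Set (Set I)}
    (hK : IsKIdeal kappa K) : IsKIdeal sg K :=
  ⟨hK.univ_notMem, hK.down, fun S hS hc => hK.sUnion S hS (hc.trans_le h)⟩

/-- `th` is a true cofinality of the part of the family below `d` and above `c0` -/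
def SmallTc {kappa : Cardinal.{u}} (s : kappa.ord.ToType → Cardinal.{u}) (c0 th : Cardinal.{u}) :
    Prop :=
  ∃ (d : kappa.ord.ToType) (K : Set (Set kappa.ord.ToType)), IsKIdeal ℵ₀ K ∧
    {i | i < d ∧ c0 < s i}ᶜ ∈ K ∧ TCF s K th

theorem small_of_not_mem {kappa : Cardinal.{u}} {s : kappa.ord.ToType → Cardinal.{u}}
    {B : Set (Set kappa.ord.ToType)} {c0 th : Cardinal.{u}} {d : kappa.ord.ToType}
    (h : {i | i < d ∧ c0 < s i} ∉ Jst ℵ₀ s B th) : SmallTc s c0 th := by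
  have hinf : (ℵ₀ : Cardinal.{u}) ≤ ℵ₀ := le_rfl
  have h1 : ∃ K, Adm ℵ₀ s B th K ∧ {i | i < d ∧ c0 < s i} ∉ K := by
    by_contra hcon
    push Not at hcon
    exact h hcon
  obtain ⟨K, hK, hA⟩ := h1
  have hKI := hK.1.isKI
  have hTr := Tr_isKI hKI {i | i < d ∧ c0 < s i}
  refine ⟨d, Tr K {i | i < d ∧ c0 < s i}, ⟨fun h2 => hA ?_, hTr.down, hTr.sUnion⟩, ?_,
    TCF_mono (Tr_sub hKI _) hK.2.2⟩
  · have h3 : Set.univ ∩ {i | i < d ∧ c0 < s i} ∈ K := h2
    rwa [Set.univ_inter] at h3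
  · show {i | i < d ∧ c0 < s i}ᶜ ∩ {i | i < d ∧ c0 < s i} ∈ K
    rw [Set.compl_inter_self]; exact hKI.empty hinf

theorem unc_main {kappa mu lam : Cardinal.{u}} (hk : kappa.IsRegular) (hunc : ℵ₀ < kappa)
    (s : kappa.ord.ToType → Cardinal.{u}) (hs : StrictMono s) (hreg : ∀ i, (s i).IsRegular)
    (hsbig : ∀ i, (2 : Cardinal.{u}) ^ kappa < s i) (hlub : IsLUB (Set.range s) mu)
    (K : Set (Set kappa.ord.ToType)) (hK : IsKIdeal kappa K) (hJ : Jbd kappa.ord.ToType ⊆ K)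
    (hT : TCF s K lam) (c0 : Cardinal.{u}) (hc0 : c0 < mu) :
    SmallTc s c0 lam ∨ ∃ (chi : Cardinal.{u}) (t : kappa.ord.ToType → Cardinal.{u}), mu ≤ chi ∧
      chi < lam ∧ StrictMono t ∧ (∀ i, SmallTc s c0 (t i)) ∧ IsLUB (Set.range t) chi ∧
      TCF t (Jbd kappa.ord.ToType) lam := by
  classical
  have hinf := hk.aleph0_le
  have hinf0 : (ℵ₀ : Cardinal.{u}) ≤ ℵ₀ := le_rfl
  have hsmall : ∀ x, #(Set kappa.ord.ToType) < s x := by
    intro x
    refine lt_of_le_of_lt ?_ (hsbig x)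
    rw [Cardinal.mk_set, mk_ord_toType]
  have hKa : IsKIdeal ℵ₀ K := ideal_anti hinf hK
  set B0 : Set (Set kappa.ord.ToType) := {∅} with hB0
  have hB0KI : IsKI ℵ₀ B0 := by
    refine isKI_of_fin rfl ?_ ?_
    · intro X Y hXY hY
      have hY' : Y = ∅ := hY
      subst hY'
      exact Set.subset_eq_empty hXY rfl
    · intro X Y hX hY
      have hX' : X = ∅ := hX
      have hY' : Y = ∅ := hY
      show X ∪ Y = ∅
      rw [hX', hY', Set.union_empty]
  have hB0K : B0 ⊆ K := by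
    rintro X rfl
    exact hKa.isKI.empty hinf0
  have hInP0 : InP ℵ₀ s B0 lam := ⟨K, hKa, hB0K, hT⟩
  obtain ⟨b, hb1, hb2⟩ := exists_gen hinf0 hreg hsmall hInP0
  have hbK : bᶜ ∈ K := hb1 _ ⟨hKa, hB0K, hT⟩
  set D : Set kappa.ord.ToType := b ∩ {i | c0 < s i} with hD
  have hDc : Dᶜ ∈ K := by
    have h1 : {i | c0 < s i}ᶜ ∈ K := by
      apply hJ
      obtain ⟨i0, hi0⟩ := lub_ex hlub hc0
      refine ⟨i0, fun x hx => ?_⟩
      have hx' : s x ≤ c0 := not_lt.1 hx
      exact (hs.lt_iff_lt.1 (lt_of_le_of_lt hx' hi0)).le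
    rw [hD, Set.compl_inter]
    exact hKa.isKI.union hinf0 hbK h1
  set B : Set (Set kappa.ord.ToType) := Tr B0 D with hB
  have hBKI : IsKI ℵ₀ B := Tr_isKI hB0KI D
  have hmemB : ∀ X, X ∈ B ↔ X ∩ D = ∅ := fun X => Iff.rfl
  have hBK : B ⊆ K := by
    intro X hX
    rw [hmemB] at hX
    refine hKa.down _ _ ?_ hDc
    intro x hx hxD
    have : x ∈ X ∩ D := ⟨hx, hxD⟩
    rw [hX] at this
    exact this
  have hB0B : B0 ⊆ B := Tr_sub hB0KI D
  have hC : CoreT ℵ₀ kappa s B lam :=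
    ⟨hinf0, hinf, (by rw [mk_ord_toType]), hreg, hsbig, hBKI, ⟨K, hKa, hBK, hT⟩⟩
  have hmax : ∀ K : Set (Set kappa.ord.ToType), IsKIdeal ℵ₀ K → B ⊆ K →
      ¬ Dir s K (Order.succ lam) := by
    intro K' hK' hBK' hd
    have h1 := hb2 K' hK'.isKI (hB0B.trans hBK') hd
    have h2 : bᶜ ∈ K' := by
      apply hBK'
      rw [hmemB]
      ext x
      simp only [hD, Set.mem_inter_iff, Set.mem_compl_iff, Set.mem_empty_iff_false, iff_false]
      tauto
    have h3 := hK'.isKI.union hinf0 h1 h2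
    rw [Set.union_compl_self] at h3
    exact hK'.univ_notMem h3
  obtain ⟨F, hF⟩ := exists_goodSys hC
  obtain ⟨H, hH⟩ := exists_hat hC hF
  obtain ⟨h, hh1, hh2⟩ := exists_top hC (fun z a ha => (hH z a ha).1)
  obtain ⟨G, C, hch⟩ := exists_chain hC hF hh1
  obtain ⟨g, c, hl⟩ := exists_lim hC hch
  have hBm := Bhat_mem hC hH hh2 hl
  have hBc := Bhat_compl hC hF hch hl
  have hlamJ := loc_adm hC hC.lamP
  by_cases hcase : ∃ d, {i | i < d ∧ c0 < s i} ∉ Jst ℵ₀ s B lam
  · left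
    obtain ⟨d, hd⟩ := hcase
    exact small_of_not_mem hd
  right
  push Not at hcase
  choose u hu1 hu2 Y hu3 hu4 using fun d => fin_cover hC hmax (Bhat F g c) hBc _ (hcase d)
  -- the small sets of points
  set S : Set (Set (PT ℵ₀ s B lam)) := {U | ∃ E ∈ K, ∀ z ∈ U, Bhat F g c z ⊆ E} with hS
  have hS0 : ∅ ∈ S := ⟨∅, hKa.isKI.empty hinf0, fun z hz => absurd hz (Set.notMem_empty _)⟩
  have hSu : ∀ U V, U ∈ S → V ∈ S → U ∪ V ∈ S := by
    rintro U V ⟨E, hE, h1⟩ ⟨E', hE', h2⟩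
    refine ⟨E ∪ E', hKa.isKI.union hinf0 hE hE', ?_⟩
    rintro z (hz | hz)
    · exact (h1 z hz).trans Set.subset_union_left
    · exact (h2 z hz).trans Set.subset_union_right
  have hUS : ∀ U ∈ S, {d | u d ⊆ U} ∈ Jbd kappa.ord.ToType := by
    rintro U ⟨E, hE, hUE⟩
    by_contra hcon
    have hunb : ∀ i, ∃ d, u d ⊆ U ∧ i < d := by
      intro i
      by_contra hcon2
      push Not at hcon2
      exact hcon ⟨i, fun x hx => hcon2 x hx⟩
    have hDE : D ⊆ E := by
      intro i hi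
      obtain ⟨d, hd1, hd2⟩ := hunb i
      rcases hu4 d ⟨hd2, hi.2⟩ with h5 | h5
      · exfalso
        have h6 : i ∈ Y d ∩ D := ⟨h5, hi⟩
        rw [(hmemB _).1 (hu3 d)] at h6
        exact h6
      · obtain ⟨z, hz, hiz⟩ := Set.mem_iUnion₂.1 h5
        exact hUE z (hd1 hz) hiz
    apply hKa.univ_notMem
    have h7 := hKa.isKI.union hinf0 (hKa.down _ _ hDE hE) hDc
    rwa [Set.union_compl_self] at h7
  obtain ⟨f, hf1, hf2⟩ := exists_large hk hunc hS0 hSu u hu1 hUS
  -- the true cofinality of the sequence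
  have hT0 : #(kappa.ord.ToType) ≤ kappa := (mk_ord_toType kappa).le
  have hbd := Jbd_ideal hk
  have hfreg : ∀ t, (f t).1.IsRegular := fun t => loc_regular (f t).2.1
  have hsmall' : ∀ t, #(Set kappa.ord.ToType) < (f t).1 := by
    intro t
    refine lt_of_le_of_lt ?_ (loc_big hC (f t).2.1)
    rw [Cardinal.mk_set]
    exact Cardinal.power_le_power_left two_ne_zero hT0
  obtain ⟨c1, hc1⟩ := not_dir_of_proper hfreg hbd.univ_notMem
  obtain ⟨rho, b', hrreg, hrdir, _, hb', hKid, htcf⟩ :=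
    exists_tcf_trace hinf hbd.isKI hfreg hsmall' hc1
  have hKid0 : IsKIdeal ℵ₀ (Tr (Jbd kappa.ord.ToType) b') := ideal_anti hinf hKid
  have hGood := DS_adm hC hF hT0 f hKid0 htcf
  have hle : rho ≤ lam := by
    by_contra hcon
    exact hmax _ hGood.1 hGood.2.1 ((hGood.2.2.dir hGood.1.isKI hinf0).anti
      (Order.succ_le_of_lt (not_le.1 hcon)))
  have hge : lam ≤ rho := by
    by_contra hcon
    let z : PT ℵ₀ s B lam := ⟨rho, ⟨_, hGood⟩, not_le.1 hcon⟩
    have h1 := Bhat_trans hC hF hch hl hT0 f hKid0 z htcf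
    have h2 : {t | f t ∈ {w | Bhat F g c w ⊆ Bhat F g c z}} ∈ Jbd kappa.ord.ToType :=
      hf2 _ ⟨Bhat F g c z, hBm z _ ⟨hKa, hBK, hT⟩, fun w hw => hw⟩
    apply hKid0.univ_notMem
    refine hKid0.down _ _ ?_ (hKid0.isKI.union hinf0 h1 (Tr_sub hbd.isKI b' h2))
    intro t _
    by_cases h3 : Bhat F g c (f t) ⊆ Bhat F g c z
    · exact Or.inr h3
    · exact Or.inl h3
  have heq : rho = lam := le_antisymm hle hge
  rw [heq] at htcf
  obtain ⟨chi, t, g1, g2, g3, g4, g5, g6⟩ := inc_of_seq hk (fun i => (f i).1) hfreg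
    (fun i => loc_kappa_lt hC (f i).2.1) (fun i => (f i).2.2) b' hKid htcf
  choose j hj using g2
  refine ⟨chi, t, ?_, g4, g1, fun i => ?_, g3, g6⟩
  · by_contra hcon
    rw [not_le] at hcon
    obtain ⟨i1, hi1⟩ := lub_ex hlub hcon
    have hA1 : ∀ i, {x | x < i1 ∧ c0 < s x}ᶜ ∈ Jst ℵ₀ s B (f (j i)).1 := by
      intro i K' hK'
      have hlt : (f (j i)).1 < s i1 := by
        have h1 : t i ≤ chi := g3.1 ⟨i, rfl⟩
        rw [hj i] at h1
        exact lt_of_le_of_lt h1 hi1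
      have h2 : {x | i1 ≤ x} ∈ K' := by
        by_contra hG
        have hKI := hK'.1.isKI
        have hTr := Tr_isKI hKI {x | i1 ≤ x}
        have hpr : IsKIdeal ℵ₀ (Tr K' {x | i1 ≤ x}) := by
          refine ⟨fun h3 => hG ?_, hTr.down, hTr.sUnion⟩
          have h4 : Set.univ ∩ {x | i1 ≤ x} ∈ K' := h3
          rwa [Set.univ_inter] at h4
        refine TCF.not_dir hpr hinf0 (TCF_mono (Tr_sub hKI _) hK'.2.2) ?_
        intro T p hTc hp
        refine ⟨fun x => if i1 ≤ x then ⨆ v, p v x else 0, fun x => ?_, fun v => ?_⟩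
        · by_cases hx : i1 ≤ x
          · simp only [hx, if_true]
            apply Ordinal.iSup_lt_of_lt_cof
            · rw [(hreg x).cof_ord]
              exact lt_of_lt_of_le (lt_of_le_of_lt (Order.lt_succ_iff.1 hTc) hlt)
                (hs.monotone hx)
            · intro v; exact hp v x
          · simp only [hx, if_false]
            exact (hreg x).ord_pos
        · show {x | (if i1 ≤ x then ⨆ v, p v x else 0) < p v x} ∩ {x | i1 ≤ x} ∈ K'
          have h5 : {x | (if i1 ≤ x then ⨆ v, p v x else 0) < p v x} ∩ {x | i1 ≤ x} =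
              (∅ : Set kappa.ord.ToType) := by
            ext x
            simp only [Set.mem_inter_iff, Set.mem_ofPred_eq, Set.mem_empty_iff_false, iff_false,
              not_and]
            intro h6 h7
            simp only [h7, if_true] at h6
            exact absurd (Ordinal.le_iSup (fun v => p v x) v) (not_le.2 h6)
          rw [h5]; exact hKI.empty hinf0
      have h3 : {x | c0 < s x}ᶜ ∈ K' := by
        apply hK'.2.1
        rw [hmemB]
        ext x
        simp only [hD, Set.mem_inter_iff, Set.mem_compl_iff, Set.mem_ofPred_eq,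
          Set.mem_empty_iff_false, iff_false]
        tauto
      refine hK'.1.down _ _ ?_ (hK'.1.isKI.union hinf0 h2 h3)
      intro x hx
      by_cases h4 : i1 ≤ x
      · exact Or.inl h4
      · right
        intro h5
        exact hx ⟨not_le.1 h4, h5⟩
    have hbd0 : IsKIdeal ℵ₀ (Jbd kappa.ord.ToType) := ideal_anti hinf hbd
    have htt : TCF (fun i => (f (j i)).1) (Jbd kappa.ord.ToType) lam := by
      have h1 : (fun i => (f (j i)).1) = t := by
        funext i; exact (hj i).symm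
      rw [h1]; exact g6
    have hadm := DS_adm hC hF hT0 (fun i => f (j i)) hbd0 htt
    have h1 : {x | x < i1 ∧ c0 < s x}ᶜ ∈ DS (fun i => f (j i)) (Jbd kappa.ord.ToType) := by
      have h2 : {i | {x | x < i1 ∧ c0 < s x}ᶜ ∉ Jst ℵ₀ s B (f (j i)).1} =
          (∅ : Set kappa.ord.ToType) := by
        ext i
        simp only [Set.mem_empty_iff_false, iff_false]
        exact fun h3 => h3 (hA1 i)
      show {i | {x | x < i1 ∧ c0 < s x}ᶜ ∉ Jst ℵ₀ s B (f (j i)).1} ∈ Jbd kappa.ord.ToType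
      rw [h2]; exact hbd0.isKI.empty hinf0
    have h2 := hcase i1 _ hadm
    have h3 := hadm.1.isKI.union hinf0 h2 h1
    rw [Set.union_compl_self] at h3
    exact hadm.1.univ_notMem h3
  · obtain ⟨d, hd⟩ := hf1 (j i)
    have h1 := hu2 d _ hd
    rw [hj i]
    exact small_of_not_mem h1

end Pool.Agent.PcfUnc
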